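import Pool.Agent.Y890.CF.Omega

/-!
The error term of the formula of Conjecture F for `x^2+x+A` is `Ω(log log N)`, in every short interval. It rests on
`Pool.Agent.H474R2.PG.composite_strings` of the starting library (long strings of composite values of polynomials)
and follows the argument of helper867 for `n^2+1`.
-/

namespace Pool.Agent.Results.MP_8be758_nt.ErrorTermShortIntervals

/-- For every `A ≥ 3` there are `c > 0` and `Y₀` such that for all `C ≥ 0`, `Y ≥ Y₀` and all integers `x ≥ Y` some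
integer `N` between `x` and `x + Y` satisfies `|P_A(N) - C L_A(N)| ≥ c C (log Y / log x) log log Y`. -/
theorem result (A : ℕ) (hA : 3 ≤ A) : ∃ c : ℝ, 0 < c ∧ ∃ Y₀ : ℝ, ∀ (C Y : ℝ) (x : ℕ), 0 ≤ C → Y₀ ≤ Y → Y ≤ x →
    ∃ N : ℕ, x ≤ N ∧ (N : ℝ) ≤ x + Y ∧
      c * C * (Real.log Y / Real.log x) * Real.log (Real.log Y) ≤
        |(((Finset.range (N + 1)).filter (fun n => (n ^ 2 + n + A).Prime)).card : ℝ) -
          C * (2 * ∫ t in (0 : ℝ)..(N : ℝ), 1 / Real.log (t ^ 2 + t + A))| :=
  Pool.Agent.Y890.CF.omega A hA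

end Pool.Agent.Results.MP_8be758_nt.ErrorTermShortIntervals
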