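import Mathlib
import Pool.Agent.Y122.MU.Quad
import Pool.Agent.Y122.MU.Li

set_option autoImplicit false

/-!
# The Hardy–Littlewood asymptotic for `x ^ 2 + x + A`, simultaneously for all odd `A ≥ 3`, for all `α`
# outside one set of dimension less than one

For `α > 0` and a sieving limit `k` let `count α A k n` be the number of the `x ∈ {0, …, n}` such that
`F(x) = x ^ 2 + x + A` has no prime factor `≤ k` and the `k`-rough part of `⌊α F(x)⌋` is a prime number.
For `α = 1` both conditions concern the same number, and they say that `F(x)` is a prime `> k`.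

The law `Law α A C` says that `count α A (z n) n` is asymptotic to `C L_A(n)` whenever `z n → ∞` and
`9 z n ≤ log₂ n`.  With the constant `C = C(1 - 4A)` of Hardy and Littlewood, `Law 1 A C` is equivalent to
their Conjecture F for `x ^ 2 + x + A`.  We prove that there is one set `E` of Hausdorff dimension less
than one such that for all `α > 0` outside `E` the law holds for all odd `A ≥ 3`.

Proof (libraries `Pool.Agent.Y122.MH` and `Pool.Agent.Y122.MU`, new, on top of van der Corput's method from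
the starting library).  For `a = log α` and an arbitrary set `T` of positive integers, the number of the `n`
in a short interval `(X, Y]` and in given residue classes modulo `Q ≤ X ^ (1/4)` with `⌊α f(n)⌋ ∈ T` is
compared with the corresponding integral, in mean square over `a` in an interval of length one, by means of
the Fourier transform in `a` and exponential sums with phase `ξ log f`.  The saving depends only on the
degree of `f`; this gives one exceptional set for all polynomials of one degree.  The main term is evaluated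
with the prime number theorem for numbers whose rough part is prime; the local densities of `F` combine with
the factor `∏ (1 - 1 / p)⁻¹` from the rough parts to the constant of Conjecture F.
-/

namespace Pool.Agent.Results.MP_8be758_nt.MetricConjectureF

open Filter Topology MeasureTheory

/-- The `k`-rough part of `m`: the product, with multiplicity, of the prime factors of `m` that are
larger than `k`. -/
def rough (k m : ℕ) : ℕ := (m.primeFactorsList.filter (fun p => k < p)).prod

open Classical in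
/-- The number of the `x ∈ {0, …, n}` for which `x ^ 2 + x + A` has no prime factor `≤ k` and the `k`-rough
part of `⌊α (x ^ 2 + x + A)⌋` is a prime number. -/
noncomputable def count (α : ℝ) (A k n : ℕ) : ℕ :=
  ((Finset.range (n + 1)).filter (fun x : ℕ => (∀ p : ℕ, p.Prime → p ≤ k → ¬ p ∣ x ^ 2 + x + A) ∧
    (rough k ⌊α * ((x : ℝ) ^ 2 + x + A)⌋₊).Prime)).card

/-- `P_A(n)`: the number of the `x ∈ {0, …, n}` for which `x ^ 2 + x + A` is prime. -/
def PA (A n : ℕ) : ℕ := ((Finset.range (n + 1)).filter (fun x => (x ^ 2 + x + A).Prime)).card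

/-- `L_A(n) = 2 ∫_0^n dx / log (x ^ 2 + x + A)`. -/
noncomputable def LA (A n : ℕ) : ℝ := 2 * ∫ x in (0 : ℝ)..(n : ℝ), 1 / Real.log (x ^ 2 + x + A)

/-- The asymptotic formula with the constant `C`, for all sieving limits `z n → ∞` that are at
most `(log₂ n) / 9`. -/
def Law (α : ℝ) (A : ℕ) (C : ℝ) : Prop :=
  ∀ z : ℕ → ℕ, Tendsto z atTop atTop → (∀ᶠ n in atTop, 9 * z n ≤ Nat.log 2 n) →
    Tendsto (fun n : ℕ => (count α A (z n) n : ℝ) / LA A n) atTop (𝓝 C)

open Pool.Agent.W468.ConjF in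
lemma admissible {A : ℕ} (hA : Odd A) (h3 : 3 ≤ A) : Admissible 1 1 (A : ℤ) := by
  refine ⟨one_pos, fun d h _ _ => isUnit_of_dvd_one h, fun h => ?_, fun h => ?_⟩
  · obtain ⟨m, hm⟩ := hA
    have := h.2
    omega
  · obtain ⟨r, hr⟩ := h
    have h3' : (3 : ℤ) ≤ A := by exact_mod_cast h3
    nlinarith [mul_self_nonneg r]

open Pool.Agent.W468.ConjF in
lemma CF_eq (A z : ℕ) : CF 1 1 (A : ℤ) z = ∏ p ∈ (Finset.range (z + 1)).filter (fun p => p.Prime ∧ 3 ≤ p),
    (1 - (jacobiSym (1 - 4 * (A : ℤ)) p : ℝ) / ((p : ℝ) - 1)) := by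
  unfold CF
  have h1 : (Finset.range (z + 1)).filter (fun p : ℕ => p.Prime ∧ 3 ≤ p ∧ (p : ℤ) ∣ 1 ∧ (p : ℤ) ∣ 1) = ∅ := by
    rw [Finset.filter_eq_empty_iff]
    rintro p _ ⟨hp, _, h, _⟩
    have := Int.le_of_dvd one_pos h
    have := hp.two_le
    omega
  have h2 : (Finset.range (z + 1)).filter (fun p : ℕ => p.Prime ∧ 3 ≤ p ∧ ¬ (p : ℤ) ∣ 1) =
      (Finset.range (z + 1)).filter (fun p : ℕ => p.Prime ∧ 3 ≤ p) := by
    refine Finset.filter_congr fun p _ => ?_
    constructor
    · rintro ⟨a, b, _⟩; exact ⟨a, b⟩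
    · rintro ⟨a, b⟩
      refine ⟨a, b, fun h => ?_⟩
      have := Int.le_of_dvd one_pos h
      omega
  rw [h1, h2, Finset.prod_empty, mul_one]
  have h3 : (2 : ℤ) ∣ 1 + 1 := by norm_num
  rw [if_pos h3, one_mul]
  refine Finset.prod_congr rfl fun p _ => ?_
  have h4 : (1 : ℤ) ^ 2 - 4 * 1 * (A : ℤ) = 1 - 4 * (A : ℤ) := by ring
  rw [h4]

open Classical in
/-- the count without `x = 0` -/
noncomputable def count' (α : ℝ) (A k n : ℕ) : ℕ :=
  ((Finset.Ioc 0 n).filter (fun x : ℕ => (∀ p : ℕ, p.Prime → p ≤ k → ¬ p ∣ x ^ 2 + x + A) ∧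
    (rough k ⌊α * ((x : ℝ) ^ 2 + x + A)⌋₊).Prime)).card

lemma count_near (α : ℝ) (A k n : ℕ) : |(count α A k n : ℝ) - count' α A k n| ≤ 1 := by
  classical
  have h1 : count' α A k n ≤ count α A k n := by
    unfold count count'
    refine Finset.card_le_card (Finset.filter_subset_filter _ fun x hx => ?_)
    rw [Finset.mem_Ioc] at hx
    rw [Finset.mem_range]
    omega
  have h2 : count α A k n ≤ count' α A k n + 1 := by
    unfold count count'
    have h3 : Finset.range (n + 1) = insert 0 (Finset.Ioc 0 n) := by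
      ext x
      rw [Finset.mem_range, Finset.mem_insert, Finset.mem_Ioc]
      omega
    rw [h3, Finset.filter_insert]
    split_ifs
    · exact Finset.card_insert_le _ _
    · omega
  have h1' : (count' α A k n : ℝ) ≤ count α A k n := by exact_mod_cast h1
  have h2' : (count α A k n : ℝ) ≤ count' α A k n + 1 := by exact_mod_cast h2
  rw [abs_le]
  constructor <;> linarith

open Pool.Agent.Y122.MH Pool.Agent.W468.ConjF in
lemma count'_eq {α : ℝ} (hα : 0 < α) (hirr : Irrational α) (A k n : ℕ) :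
    count' α A k n = cn (P 1 1 (A : ℤ)) k (Real.log α) 0 n := by
  classical
  unfold count' cn
  congr 1
  refine Finset.filter_congr fun x hx => ?_
  have hx0 : 0 < x := (Finset.mem_Ioc.1 hx).1
  have hev : (P 1 1 (A : ℤ)).eval (x : ℤ) = ((x ^ 2 + x + A : ℕ) : ℤ) := by
    rw [eval_P]
    push_cast
    ring
  refine and_congr ?_ ?_
  · rw [Cop_primorial]
    refine forall_congr' fun p => forall_congr' fun _ => forall_congr' fun _ => not_congr ?_
    rw [hev, Int.natCast_dvd_natCast]
  · have h1 : (gR (P 1 1 (A : ℤ))).eval (x : ℝ) = (x : ℝ) ^ 2 + x + A := by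
      rw [gR_eval, hev]
      push_cast
      rfl
    have hx1 : (0 : ℝ) < x := by exact_mod_cast hx0
    rw [h1, NN_floor (by positivity) hα]
    · rfl
    · have h2 : ((x : ℝ) ^ 2 + x + A) = ((x ^ 2 + x + A : ℕ) : ℝ) := by push_cast; rfl
      rw [h2]
      exact hirr.mul_natCast (by positivity)

lemma count_one (A k n : ℕ) (hA : 1 ≤ A) :
    count 1 A k n = ((Finset.range (n + 1)).filter
      (fun x => (x ^ 2 + x + A).Prime ∧ k < x ^ 2 + x + A)).card := by
  classical
  unfold count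
  congr 1
  refine Finset.filter_congr fun x _ => ?_
  have h1 : ⌊(1 : ℝ) * ((x : ℝ) ^ 2 + x + A)⌋₊ = x ^ 2 + x + A := by
    rw [one_mul, show ((x : ℝ) ^ 2 + x + A) = ((x ^ 2 + x + A : ℕ) : ℝ) by push_cast; rfl, Nat.floor_natCast]
  rw [h1]
  exact Pool.Agent.Y122.MH.rough_one (by omega)

lemma count_one_near (A k n : ℕ) (hA : 1 ≤ A) : |(count 1 A k n : ℝ) - (PA A n : ℝ)| ≤ k := by
  rw [count_one A k n hA]
  unfold PA
  have h1 : ((Finset.range (n + 1)).filter (fun x => (x ^ 2 + x + A).Prime ∧ k < x ^ 2 + x + A)).card ≤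
      ((Finset.range (n + 1)).filter (fun x => (x ^ 2 + x + A).Prime)).card :=
    Finset.card_le_card (Finset.monotone_filter_right _ fun x _ h => h.1)
  have h2 : ((Finset.range (n + 1)).filter (fun x => (x ^ 2 + x + A).Prime)).card ≤
      ((Finset.range (n + 1)).filter (fun x => (x ^ 2 + x + A).Prime ∧ k < x ^ 2 + x + A)).card + k := by
    have h3 : (Finset.range (n + 1)).filter (fun x => (x ^ 2 + x + A).Prime) ⊆
        (Finset.range (n + 1)).filter (fun x => (x ^ 2 + x + A).Prime ∧ k < x ^ 2 + x + A) ∪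
          Finset.range k := by
      intro x hx
      rw [Finset.mem_filter] at hx
      by_cases h : k < x ^ 2 + x + A
      · exact Finset.mem_union_left _ (Finset.mem_filter.2 ⟨hx.1, hx.2, h⟩)
      · exact Finset.mem_union_right _ (Finset.mem_range.2 (by omega))
    refine (Finset.card_le_card h3).trans ((Finset.card_union_le _ _).trans ?_)
    rw [Finset.card_range]
  have h1' : (((Finset.range (n + 1)).filter (fun x => (x ^ 2 + x + A).Prime ∧ k < x ^ 2 + x + A)).card : ℝ) ≤
      ((Finset.range (n + 1)).filter (fun x => (x ^ 2 + x + A).Prime)).card := by exact_mod_cast h1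
  have h2' : (((Finset.range (n + 1)).filter (fun x => (x ^ 2 + x + A).Prime)).card : ℝ) ≤
      ((Finset.range (n + 1)).filter (fun x => (x ^ 2 + x + A).Prime ∧ k < x ^ 2 + x + A)).card + k := by
    exact_mod_cast h2
  rw [abs_le]
  constructor <;> linarith

lemma LA_li {A : ℕ} (hA : 3 ≤ A) :
    Tendsto (fun n : ℕ => LA A n / ∫ t in (2 : ℝ)..(n : ℝ), 1 / Real.log t) atTop (𝓝 1) :=
  Pool.Agent.Y122.MU.LA_li hA

lemma li_top : Tendsto (fun n : ℕ => ∫ t in (2 : ℝ)..(n : ℝ), 1 / Real.log t) atTop atTop :=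
  Pool.Agent.Y122.MU.li_top

/-- division by `L_A(n)` and by the logarithmic integral have the same limits -/
lemma tendsto_LA {A : ℕ} (hA : 3 ≤ A) (u : ℕ → ℝ) (L : ℝ)
    (h : Tendsto (fun n : ℕ => u n / ∫ t in (2 : ℝ)..(n : ℝ), 1 / Real.log t) atTop (𝓝 L)) :
    Tendsto (fun n : ℕ => u n / LA A n) atTop (𝓝 L) := by
  have h1 := h.div (LA_li hA) one_ne_zero
  rw [div_one] at h1
  refine h1.congr' ?_
  filter_upwards [li_top.eventually_gt_atTop 0] with n hn
  simp only [Pi.div_apply]
  rw [div_div_div_cancel_right₀ hn.ne']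

lemma one_li : Tendsto (fun n : ℕ => (1 : ℝ) / ∫ t in (2 : ℝ)..(n : ℝ), 1 / Real.log t) atTop (𝓝 0) :=
  li_top.const_div_atTop 1

/-- the sieving limit is small compared with the number of primes -/
lemma small (z : ℕ → ℕ) (hz : ∀ᶠ n in atTop, 9 * z n ≤ Nat.log 2 n) :
    Tendsto (fun n : ℕ => (z n : ℝ) / ∫ t in (2 : ℝ)..(n : ℝ), 1 / Real.log t) atTop (𝓝 0) := by
  have hlog : Tendsto (fun N : ℕ => Nat.log 2 N) atTop atTop :=
    tendsto_atTop.2 fun b => Pool.Agent.Y122.MH.log_large b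
  have h1 := (tendsto_pow_const_div_const_pow_of_one_lt 2 (show (1 : ℝ) < 2 by norm_num)).comp hlog
  have h2 := h1.const_mul 4
  rw [mul_zero] at h2
  refine squeeze_zero' ?_ ?_ h2
  · filter_upwards [li_top.eventually_gt_atTop 0] with n hn
    positivity
  · filter_upwards [hz, Pool.Agent.Y122.MH.log_large 3, eventually_ge_atTop 1] with N h0 h3 h4
    have h5 := Pool.Agent.Y122.MH.li_low h3 (Nat.pow_log_le_self 2 (by omega))
      (Nat.lt_pow_succ_log_self (by norm_num) N).le
    set I := Nat.log 2 N with hI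
    have hI0 : (0 : ℝ) < I := by exact_mod_cast (by omega : 0 < I)
    have h6 : (z N : ℝ) ≤ I := by exact_mod_cast (by omega : z N ≤ I)
    have h7 : (0 : ℝ) < 2 ^ I / (4 * I) := by positivity
    calc (z N : ℝ) / ∫ t in (2 : ℝ)..(N : ℝ), 1 / Real.log t ≤ I / (2 ^ I / (4 * I)) :=
          div_le_div₀ hI0.le h6 h7 h5
      _ = 4 * ((I : ℝ) ^ 2 / 2 ^ I) := by field_simp

lemma law_one {A : ℕ} (hA : 3 ≤ A) (C : ℝ) : Law 1 A C ↔
    Tendsto (fun n : ℕ => (PA A n : ℝ) / LA A n) atTop (𝓝 C) := by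
  have key : ∀ z : ℕ → ℕ, (∀ᶠ n in atTop, 9 * z n ≤ Nat.log 2 n) →
      Tendsto (fun n : ℕ => ((count 1 A (z n) n : ℝ) - (PA A n : ℝ)) / LA A n) atTop (𝓝 0) := by
    intro z hz
    refine tendsto_LA hA _ 0 (squeeze_zero_norm' ?_ (small z hz))
    filter_upwards [li_top.eventually_gt_atTop 0] with n hn
    rw [Real.norm_eq_abs, abs_div, abs_of_pos hn]
    exact div_le_div_of_nonneg_right (count_one_near A _ _ (by omega)) hn.le
  constructor
  · intro h
    have hlog : Tendsto (fun N : ℕ => Nat.log 2 N / 9) atTop atTop := by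
      refine tendsto_atTop.2 fun b => ?_
      filter_upwards [Pool.Agent.Y122.MH.log_large (9 * b)] with N hN
      exact (Nat.le_div_iff_mul_le (by norm_num)).2 (by omega)
    have hz9 : ∀ᶠ N in atTop, 9 * (Nat.log 2 N / 9) ≤ Nat.log 2 N :=
      Eventually.of_forall fun N => Nat.mul_div_le _ 9
    have h1 := (h _ hlog hz9).sub (key _ hz9)
    rw [sub_zero] at h1
    exact h1.congr fun N => by ring
  · intro h z _ hz9
    have h1 := h.add (key z hz9)
    rw [add_zero] at h1
    exact h1.congr fun N => by ring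

theorem result : ∃ C : ℕ → ℝ,
    (∀ A : ℕ, Odd A → 3 ≤ A → 0 < C A ∧
      Tendsto (fun x : ℕ => ∏ p ∈ (Finset.range (x + 1)).filter (fun p => p.Prime ∧ 3 ≤ p),
        (1 - (jacobiSym (1 - 4 * (A : ℤ)) p : ℝ) / ((p : ℝ) - 1))) atTop (𝓝 (C A))) ∧
    (∀ A k n : ℕ, 3 ≤ A → count 1 A k n = ((Finset.range (n + 1)).filter
      (fun x => (x ^ 2 + x + A).Prime ∧ k < x ^ 2 + x + A)).card) ∧
    (∀ A : ℕ, Odd A → 3 ≤ A →
      (Law 1 A (C A) ↔ Tendsto (fun n : ℕ => (PA A n : ℝ) / LA A n) atTop (𝓝 (C A)))) ∧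
    ∃ E : Set ℝ, dimH E < 1 ∧ ∀ α : ℝ, 0 < α → α ∉ E → ∀ A : ℕ, Odd A → 3 ≤ A → Law α A (C A) := by
  have hex : ∀ A : ℕ, ∃ K : ℝ, Odd A → 3 ≤ A → 0 < K ∧
      Tendsto (fun z => Pool.Agent.W468.ConjF.CF 1 1 (A : ℤ) z) atTop (𝓝 K) := by
    intro A
    by_cases h : Odd A ∧ 3 ≤ A
    · obtain ⟨K, hK⟩ := Pool.Agent.W468.ConjF.CF_tendsto 1 1 (A : ℤ) one_pos (admissible h.1 h.2).2.2.2
      exact ⟨K, fun _ _ => hK⟩
    · exact ⟨0, fun h1 h2 => absurd ⟨h1, h2⟩ h⟩
  choose C hC using hex
  refine ⟨C, fun A h1 h2 => ⟨(hC A h1 h2).1, ?_⟩, fun A k n hA => count_one A k n (by omega),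
    fun A _ h2 => law_one h2 _, ?_⟩
  · refine (hC A h1 h2).2.congr fun z => CF_eq A z
  obtain ⟨E, hE, h⟩ := Pool.Agent.Y122.MU.quad
  refine ⟨E, hE, fun α hα hαE A hodd h3 z hz hz9 => ?_⟩
  obtain ⟨hirr, hlaw⟩ := h α hαE
  have h1 := hlaw hα 1 1 (A : ℤ) (admissible hodd h3) (C A) (hC A hodd h3).2 z hz hz9
  have h2 : Tendsto (fun n : ℕ => ((count α A (z n) n : ℝ) - count' α A (z n) n) /
      ∫ t in (2 : ℝ)..(n : ℝ), 1 / Real.log t) atTop (𝓝 0) := by
    refine squeeze_zero_norm' ?_ one_li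
    filter_upwards [li_top.eventually_gt_atTop 0] with n hn
    rw [Real.norm_eq_abs, abs_div, abs_of_pos hn]
    exact div_le_div_of_nonneg_right (count_near α A _ _) hn.le
  have h4 := h2.add h1
  rw [zero_add] at h4
  refine tendsto_LA h3 _ _ (h4.congr fun n => ?_)
  rw [← count'_eq hα hirr]
  ring

end Pool.Agent.Results.MP_8be758_nt.MetricConjectureF
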