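import Pool.Agent.Y816.PD.Chain

set_option autoImplicit false

/-!
# Values of `n ^ 2 + n + a`, `a` odd, with few prime factors, at integers with restricted digits

The integers `n < b ^ K` whose `i`-th digit in base `b` belongs to an arbitrary set `A i` (for all `i < K`)
are considered, the product of the `|A i|` being at least `exp (- c K) b ^ K`.
-/

namespace Pool.Agent.Results.MP_8be758_nt.RestrictedDigits

open Finset Filter
open Pool.Agent.Y816.PD (ND NA)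

/-- All prime factors of `n ^ 2 + n + a` are larger than `n ^ (1 / r)`. -/
def R (a : ℕ) (r : ℕ) : Set ℕ :=
  {n | ∀ p : ℕ, p.Prime → p ∣ n ^ 2 + n + a → (n : ℝ) ^ (1 / (r : ℝ)) < (p : ℝ)}

/-- The `n` of `R a r` for which `n ^ 2 + n + a` has at most `r` prime factors. -/
def P (a : ℕ) (r : ℕ) : Set ℕ :=
  {n | n ∈ R a r ∧ (n ^ 2 + n + a).primeFactorsList.length ≤ r}

/-- **Values of `n ^ 2 + n + a`, `a` odd, with few prime factors at integers with restricted digits.** -/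
theorem result (a : ℕ) (ha : 3 ≤ a) (hodd : Odd a) :
    ∃ c : ℝ, 0 < c ∧ ∃ r₀ : ℕ, 2 ≤ r₀ ∧ ∀ r : ℕ, r₀ ≤ r →
      (∀ n : ℕ, (n ^ 2 + n + a).Prime → n ∈ R a r) ∧
      ∀ b : ℕ, 2 ≤ b → ∃ κ C : ℝ, 0 < κ ∧ 0 < C ∧ ∀ᶠ K : ℕ in atTop, ∀ A : ℕ → Finset ℕ,
        (∀ i < K, A i ⊆ range b) → (b : ℝ) ^ K ≤ Real.exp (c * K) * NA K A →
        ((∃ n ∈ A 0, (n ^ 2 + n + a).Coprime b) → κ * NA K A / (K : ℝ) ≤ ND b K A (P a r)) ∧
        (ND b K A (R a r) : ℝ) ≤ C * NA K A / (K : ℝ) := by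
  have hval : ∀ n : ℕ, 1 * (n : ℤ) ^ 2 + 1 * n + (a : ℤ) = ((n ^ 2 + n + a : ℕ) : ℤ) := fun n => by
    push_cast; ring
  obtain ⟨c, hc, r₀, hr₀, h⟩ := Pool.Agent.Y816.PD.digits_quad 1 1 (a : ℤ) one_pos
    (fun p hp h => by
      have : p ∣ 1 := by exact_mod_cast h.1
      exact hp.one_lt.ne' (Nat.dvd_one.1 this))
    (by
      rintro ⟨s, hs⟩
      have h1 : (3 : ℤ) ≤ a := by exact_mod_cast ha
      nlinarith [mul_self_nonneg s])
    (fun p hp => by
      by_cases hpa : p ∣ a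
      · refine ⟨1, fun hd => ?_⟩
        have h1 : (1 : ℤ) * ((1 : ℕ) : ℤ) ^ 2 + 1 * ((1 : ℕ) : ℤ) + (a : ℤ) = ((2 + a : ℕ) : ℤ) := by
          push_cast; ring
        rw [h1, Int.natCast_dvd_natCast, ← Nat.dvd_add_iff_left hpa] at hd
        have h2 := (Nat.prime_dvd_prime_iff_eq hp Nat.prime_two).1 hd
        rw [h2] at hpa
        obtain ⟨m, hm⟩ := hodd
        omega
      · refine ⟨0, fun hd => hpa ?_⟩
        have h1 : (1 : ℤ) * ((0 : ℕ) : ℤ) ^ 2 + 1 * ((0 : ℕ) : ℤ) + (a : ℤ) = ((a : ℕ) : ℤ) := by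
          push_cast; ring
        rw [h1, Int.natCast_dvd_natCast] at hd
        exact hd)
    (fun r => R a r) (fun r => P a r)
    (fun r m _ hm p hp hd => hm p hp (by rw [hval] at hd; exact_mod_cast hd))
    (fun r m _ h1 h2 => ⟨fun p hp hd => h1 p hp (by rw [hval]; exact_mod_cast hd), by
      rw [hval, Int.natAbs_natCast] at h2
      exact h2⟩)
    (fun b n => (n ^ 2 + n + a).Coprime b)
    (fun b n _ h p hp hpb hd => by
      rw [hval, Int.natCast_dvd_natCast] at hd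
      have h2 := Nat.dvd_gcd hd hpb
      rw [h] at h2
      exact hp.one_lt.ne' (Nat.dvd_one.1 h2))
  simp only [pow_one] at h
  refine ⟨c, hc, r₀, hr₀, fun r hr => ⟨fun n hn p hp hd => ?_, h r hr⟩⟩
  have h2r : 2 ≤ r := hr₀.trans hr
  have hr0 : (0 : ℝ) < r := by exact_mod_cast (by omega : 0 < r)
  rw [(Nat.prime_dvd_prime_iff_eq hp hn).1 hd]
  rcases lt_or_ge n 2 with h2 | h2
  · have h3 : (n : ℝ) ^ (1 / (r : ℝ)) ≤ 1 := by
      apply Real.rpow_le_one (Nat.cast_nonneg _) _ (by positivity)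
      exact_mod_cast (by omega : n ≤ 1)
    have h4 : (1 : ℝ) < ((n ^ 2 + n + a : ℕ) : ℝ) := by exact_mod_cast hn.one_lt
    linarith
  · exact Pool.Agent.TH977.PW.rpow_lt_of_le r n _ h2r h2 (by nlinarith)

end Pool.Agent.Results.MP_8be758_nt.RestrictedDigits
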